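import Mathlib

namespace Pool.Agent.H.MP_5fce70_co

open Finset

variable {K : Type} [Field K]

def SL {M : Type} [AddCommGroup M] [Module K M] (σ : K ≃+* K) (φ : M ≃+ M) : Prop :=
  ∀ (a : K) x, φ (a • x) = σ a • φ x

theorem SL.symm {M : Type} [AddCommGroup M] [Module K M] {σ : K ≃+* K} {φ : M ≃+ M}
    (h : SL σ φ) : SL σ.symm φ.symm := fun a x => φ.injective (by rw [h]; simp)

def Sp (s t : K × K) : Prop := ∀ x, ∃ a b : K, x = a • s + b • t

theorem sp {s t : K × K} (hs : s ≠ 0) (ht : ∀ a : K, t ≠ a • s) : Sp s t := by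
  obtain ⟨s1, s2⟩ := s
  obtain ⟨t1, t2⟩ := t
  have hd : s1 * t2 - s2 * t1 ≠ 0 := fun e => by
    by_cases h : s1 = 0
    · have h2 : s2 ≠ 0 := fun h2 => hs (by simp [h, h2])
      refine ht (t2 / s2) (Prod.ext ?_ (by simp [h2]))
      simpa [h, h2] using e
    · refine ht (t1 / s1) (Prod.ext (by simp [h]) ?_)
      simp only [Prod.smul_mk, smul_eq_mul]
      field_simp
      linear_combination e
  rintro ⟨x, y⟩
  refine ⟨(x * t2 - y * t1) / (s1 * t2 - s2 * t1), (s1 * y - s2 * x) / (s1 * t2 - s2 * t1), ?_⟩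
  simp only [Prod.smul_mk, smul_eq_mul, Prod.mk_add_mk, Prod.mk.injEq]
  constructor <;> rw [div_mul_eq_mul_div, div_mul_eq_mul_div, ← add_div, eq_div_iff hd] <;> ring

theorem Sp.z {s t : K × K} (h : Sp s t) {σ : K ≃+* K} {φ : (K × K) × K ≃+ (K × K) × K}
    (hφ : SL σ φ) (h1 : (φ (s, 0)).2 = 0) (h2 : (φ (t, 0)).2 = 0) (w : K × K) :
    (φ (w, 0)).2 = 0 := by
  obtain ⟨a, b, rfl⟩ := h w
  rw [show ((a • s + b • t, 0) : (K × K) × K) = a • (s, 0) + b • (t, 0) by simp, map_add, hφ, hφ]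
  simp [h1, h2]

def C (U : AddSubgroup (K × K)) (v x : (K × K) × K) : Prop :=
  (x.2 ≠ 0 ∧ ∃ a : K, ∃ u ∈ U, x = a • (v + (u, 0))) ∨ (x.2 = 0 ∧ ∀ a : K, ∀ u ∈ U, x.1 ≠ a • u)

theorem tr {U : AddSubgroup (K × K)} {v x y : (K × K) × K} (hv : v.2 ≠ 0) (hx : C U v x)
    (hy : C U v y) (x2 : x.2 ≠ 0) (y2 : y.2 ≠ 0) : ∃ τ : (K × K) × K ≃+ (K × K) × K,
      SL (RingEquiv.refl K) τ ∧ (∀ z, C U v z → C U v (τ z)) ∧ (∀ z, z.2 = 0 → τ z = z) ∧
        ∃ b : K, τ x = b • y := by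
  obtain ⟨-, a, u, hu, rfl⟩ := hx.resolve_right fun h => x2 h.1
  obtain ⟨-, b, w, hw, rfl⟩ := hy.resolve_right fun h => y2 h.1
  have hb : b ≠ 0 := fun e => y2 (by simp [e])
  set τ : (K × K) × K ≃+ (K × K) × K :=
    { toFun := fun z => (z.1 + (z.2 / v.2) • (w - u), z.2)
      invFun := fun z => (z.1 - (z.2 / v.2) • (w - u), z.2)
      left_inv := fun z => by simp
      right_inv := fun z => by simp
      map_add' := fun z z' => by
        simp only [Prod.fst_add, Prod.snd_add, Prod.mk_add_mk, add_div, add_smul]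
        abel_nf } with hτ
  have e : ∀ (c : K) p, τ (c • (v + (p, 0))) = c • (v + (p + (w - u), 0)) := fun c p => by
    refine Prod.ext ?_ (by simp [hτ])
    simp [hτ, hv, add_assoc]
  have e2 : ∀ z, (τ z).2 = z.2 := fun z => rfl
  have e3 : ∀ z, z.2 = 0 → τ z = z := fun z h => Prod.ext (by simp [hτ, h]) rfl
  refine ⟨τ, fun c z => Prod.ext ?_ rfl, ?_, e3, a / b, ?_⟩
  · simp [hτ, mul_div_assoc, mul_smul]
  · rintro z (⟨h, c, p, hp, rfl⟩ | h)
    · exact Or.inl ⟨h, c, _, U.add_mem hp (U.sub_mem hw hu), e c p⟩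
    · rw [e3 z h.1]; exact Or.inr h
  · rw [e, smul_smul, div_mul_cancel₀ _ hb, add_sub_cancel]

variable [Fintype K]

theorem fin {U₁ U₂ : AddSubgroup (K × K)} {v₁ v₂ : (K × K) × K} (h1 : v₁.2 ≠ 0) (h2 : v₂.2 ≠ 0)
    (hc : Nat.card U₁ = Nat.card U₂) {σ : K ≃+* K} {φ : (K × K) × K ≃+ (K × K) × K}
    (hφ : SL σ φ) (hC : ∀ x, C U₁ v₁ x → C U₂ v₂ (φ x)) (hH : ∀ w, (φ (w, 0)).2 = 0) :
    ∃ ψ : K × K ≃+ K × K, SL σ ψ ∧ ∀ w, w ∈ U₁ ↔ ψ w ∈ U₂ := by
  have hk : (φ v₁).2 ≠ 0 := fun e => by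
    obtain ⟨x, hx⟩ := φ.surjective (0, 1)
    have : x = (x.2 / v₁.2) • v₁ + (x.1 - (x.2 / v₁.2) • v₁.1, 0) := Prod.ext (by simp) (by simp [h1])
    have h3 := congrArg Prod.snd hx
    rw [this, map_add, hφ] at h3
    simp [e, hH] at h3
  set α := (φ v₁).2 / v₂.2 with hα
  have a0 : α ≠ 0 := div_ne_zero hk h2
  have key : ∀ u ∈ U₁, ∃ p ∈ U₂, (φ v₁).1 + (φ (u, 0)).1 = α • (v₂.1 + p) := fun u hu => by
    rcases hC (v₁ + (u, 0)) (Or.inl ⟨by simpa using h1, 1, u, hu, by simp⟩) with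
      ⟨-, a, p, hp, e⟩ | ⟨e, -⟩
    · rw [map_add] at e
      have e1 := congrArg Prod.fst e
      have e2 := congrArg Prod.snd e
      simp only [Prod.snd_add, hH, add_zero, Prod.smul_snd, smul_eq_mul] at e2
      refine ⟨p, hp, ?_⟩
      rw [hα, e2, mul_div_cancel_right₀ _ h2]
      exact e1
    · simp [hH, hk] at e
  set f : K × K →+ K × K :=
    { toFun := fun w => α⁻¹ • (φ (w, 0)).1
      map_zero' := by simp [show ((0, 0) : (K × K) × K) = 0 from rfl]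
      map_add' := fun w w' => by
        rw [show ((w + w', 0) : (K × K) × K) = (w, 0) + (w', 0) by simp, map_add]; simp } with hf
  have fi : Function.Injective f := (injective_iff_map_eq_zero f).2 fun w hw => by
    have : φ (w, 0) = 0 := Prod.ext (by simpa [hf, a0] using hw) (hH w)
    exact congrArg Prod.fst ((map_eq_zero_iff φ φ.injective).1 this)
  have fm : ∀ u ∈ U₁, f u ∈ U₂ := fun u hu => by
    obtain ⟨p, hp, e⟩ := key u hu
    obtain ⟨q, hq, e'⟩ := key 0 U₁.zero_mem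
    rw [show ((0, 0) : (K × K) × K) = 0 from rfl, map_zero, Prod.fst_zero, add_zero] at e'
    have : (φ (u, 0)).1 = α • (p - q) := by rw [← add_right_inj (φ v₁).1, e, e']; module
    change α⁻¹ • (φ (u, 0)).1 ∈ U₂
    rw [this, inv_smul_smul₀ a0]
    exact U₂.sub_mem hp hq
  refine ⟨AddEquiv.ofBijective f (Finite.injective_iff_bijective.1 fi), fun a w => ?_,
    fun w => ⟨fm w, fun hw => ?_⟩⟩
  · change α⁻¹ • (φ (a • w, 0)).1 = σ a • α⁻¹ • (φ (w, 0)).1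
    rw [show ((a • w, 0) : (K × K) × K) = a • (w, 0) by simp, hφ, smul_comm]
    rfl
  · obtain ⟨u, hu⟩ := ((Nat.bijective_iff_injective_and_card fun u : U₁ => (⟨f u, fm u u.2⟩ : U₂)).2
      ⟨fun u u' e => Subtype.ext (fi (congrArg Subtype.val e)), hc⟩).2 ⟨_, hw⟩
    exact fi (congrArg Subtype.val hu) ▸ u.2

theorem out (U : AddSubgroup (K × K)) (hU : Nat.card U = Fintype.card K) (w : K × K) :
    ∃ s, (∀ a : K, ∀ u ∈ U, s ≠ a • u) ∧ ∀ a : K, s ≠ a • w := by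
  classical
  by_contra hc
  push Not at hc
  have h1 : (univ : Finset (K × K)) ⊆ insert 0 (((univ.erase (0 : K)) ×ˢ
      (insert w ((univ.filter (· ∈ U)).erase 0))).image fun p => p.1 • p.2) := fun s _ => by
    by_cases h0 : s = 0
    · simp [h0]
    refine mem_insert_of_mem (mem_image.2 ?_)
    by_cases h : ∀ a : K, ∀ u ∈ U, s ≠ a • u
    · obtain ⟨a, e⟩ := hc s h
      exact ⟨(a, w), by simpa using fun e' => h0 (by simp [e, e']), e.symm⟩
    · push Not at h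
      obtain ⟨a, u, hu, e⟩ := h
      have a0 : a ≠ 0 := fun e' => h0 (by simp [e, e'])
      have u0 : u ≠ 0 := fun e' => h0 (by simp [e, e'])
      exact ⟨(a, u), by simp [a0, u0, hu], e.symm⟩
  have h2 := (card_le_card h1).trans ((card_insert_le _ _).trans (Nat.succ_le_succ card_image_le))
  have h3 := card_insert_le w ((univ.filter (· ∈ U)).erase 0)
  rw [card_erase_of_mem (by simp), ← Fintype.card_subtype, ← Nat.card_eq_fintype_card, hU] at h3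
  rw [card_product, card_erase_of_mem (mem_univ _), card_univ, card_univ, Fintype.card_prod] at h2
  obtain ⟨q, hq⟩ : ∃ q, Fintype.card K = q + 2 := ⟨_, (Nat.sub_add_cancel Fintype.one_lt_card).symm⟩
  rw [hq] at h2 h3
  have := Nat.mul_le_mul_left (q + 2 - 1) h3
  simp only [Nat.add_succ_sub_one] at h2 this
  nlinarith

theorem two (U : AddSubgroup (K × K)) (hU : Nat.card U = Fintype.card K) (v : (K × K) × K)
    {σ : K ≃+* K} {φ : (K × K) × K ≃+ (K × K) × K} (hφ : SL σ φ) (hH : ¬ ∀ w, (φ (w, 0)).2 = 0) :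
    ∃ s, C U v (s, 0) ∧ (φ (s, 0)).2 ≠ 0 := by
  obtain ⟨s, s1, s2⟩ := out U hU 0
  obtain ⟨t, t1, t2⟩ := out U hU s
  by_contra hc
  push Not at hc
  exact hH ((sp (by simpa using s2 0) t2).z hφ (hc s (Or.inr ⟨rfl, s1⟩)) (hc t (Or.inr ⟨rfl, t1⟩)))

theorem core {U₁ U₂ : AddSubgroup (K × K)} {v₁ v₂ : (K × K) × K} (h1 : v₁.2 ≠ 0) (h2 : v₂.2 ≠ 0)
    (c1 : Nat.card U₁ = Fintype.card K) (c2 : Nat.card U₂ = Fintype.card K)
    {p q : K × K} (hp : p ∈ U₂) (hq : q ∈ U₂) (hs : Sp p q)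
    {σ : K ≃+* K} {φ : (K × K) × K ≃+ (K × K) × K}
    (hφ : SL σ φ) (hC : ∀ x, C U₁ v₁ x ↔ C U₂ v₂ (φ x)) :
    ∃ (σ : K ≃+* K) (ψ : K × K ≃+ K × K), SL σ ψ ∧ ∀ w, w ∈ U₁ ↔ ψ w ∈ U₂ := by
  by_cases hH : ∀ w, (φ (w, 0)).2 = 0
  · exact ⟨σ, fin h1 h2 (c1.trans c2.symm) hφ (fun x => (hC x).1) hH⟩
  have hH' : ¬ ∀ w, (φ.symm (w, 0)).2 = 0 := fun h => hH fun w => by
    have e : ∀ w, φ.symm (w, 0) = ((φ.symm (w, 0)).1, 0) := fun w => Prod.ext rfl (h w)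
    obtain ⟨y, hy⟩ := Finite.injective_iff_surjective.1 (show Function.Injective
      fun w => (φ.symm (w, 0)).1 from fun w w' e' => by
        have : φ.symm (w, 0) = φ.symm (w', 0) := Prod.ext e' ((h w).trans (h w').symm)
        exact congrArg Prod.fst (φ.symm.injective this)) w
    rw [← hy, ← e, φ.apply_symm_apply]
  have hC' : ∀ x, C U₂ v₂ x → C U₁ v₁ (φ.symm x) := fun x hx => (hC _).2 (by simpa using hx)
  obtain ⟨s, s1, s2⟩ := two U₁ c1 v₁ hφ hH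
  obtain ⟨t, t1, t2⟩ := two U₂ c2 v₂ hφ.symm hH'
  obtain ⟨u, u1, u2⟩ : ∃ u ∈ U₂, (φ.symm (v₂ + (u, 0))).2 ≠ 0 := by
    by_contra hc
    push Not at hc
    have h0 : (φ.symm v₂).2 = 0 := by
      simpa [show ((0, 0) : (K × K) × K) = 0 from rfl] using hc 0 U₂.zero_mem
    exact hH' (hs.z hφ.symm (by simpa [h0] using hc p hp) (by simpa [h0] using hc q hq))
  have hR : C U₂ v₂ (v₂ + (u, 0)) := Or.inl ⟨by simpa using h2, 1, u, u1, by simp⟩
  obtain ⟨τ, a1, a2, a3, a, a4⟩ := tr h2 ((hC _).1 s1) hR s2 (by simpa using h2)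
  obtain ⟨ρ, b1, b2, b3, b, b4⟩ := tr h1 (hC' _ hR) (hC' _ t1) u2 t2
  obtain ⟨r, r0, r1⟩ : ∃ r ≠ 0, (φ (r, 0)).2 = 0 := by
    by_contra hc
    push Not at hc
    have := Fintype.card_le_of_injective (fun r : K × K => (φ (r, 0)).2) fun r r' e => by
      by_contra hne
      refine hc _ (sub_ne_zero.2 hne) ?_
      rw [show ((r - r', 0) : (K × K) × K) = (r, 0) - (r', 0) by simp, map_sub]
      exact sub_eq_zero.2 e
    rw [Fintype.card_prod] at this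
    nlinarith [Fintype.one_lt_card (α := K)]
  have hψ : SL σ ((((φ.trans τ).trans φ.symm).trans ρ).trans φ) := fun c x => by
    simp only [AddEquiv.trans_apply]
    rw [hφ, a1, hφ.symm, b1, hφ]
    simp
  refine ⟨σ, fin h1 h2 (c1.trans c2.symm) hψ
    (fun x hx => (hC _).1 (b2 _ (hC' _ (a2 _ ((hC _).1 hx))))) ((sp r0 (t := s) ?_).z hψ ?_ ?_)⟩
  · rintro c rfl
    rw [show ((c • r, 0) : (K × K) × K) = c • (r, 0) by simp, hφ] at s2
    simp [r1] at s2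
  · simp only [AddEquiv.trans_apply]
    rw [a3 _ r1, φ.symm_apply_apply, b3 _ rfl, r1]
  · simp only [AddEquiv.trans_apply]
    rw [a4, hφ.symm, b1, b4, hφ, hφ, φ.apply_symm_apply]
    simp

theorem mv {w w' : K × K} (h : w ≠ 0) (h' : w' ≠ 0) :
    ∃ ψ : (K × K) ≃ₗ[K] (K × K), ψ w = w' := by
  have : ∀ w : K × K, w ≠ 0 → ∃ ψ : (K × K) ≃ₗ[K] (K × K), ψ (1, 0) = w := fun w h => by
    obtain ⟨t, ht⟩ : ∃ t : K × K, ∀ a : K, t ≠ a • w := by
      by_contra hc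
      push Not at hc
      obtain ⟨a, ha⟩ := hc (1, 0)
      obtain ⟨b, hb⟩ := hc (0, 1)
      simp only [Prod.ext_iff, Prod.smul_fst, Prod.smul_snd, smul_eq_mul] at ha hb
      have : (1 : K) = 0 := by
        linear_combination (b * w.2) * ha.1 + hb.2 - a * w.2 * hb.1
      exact one_ne_zero this
    refine ⟨LinearEquiv.ofBijective ((LinearMap.toSpanSingleton K _ w).coprod
      (LinearMap.toSpanSingleton K _ t)) (Finite.surjective_iff_bijective.1 fun x => ?_), by simp⟩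
    obtain ⟨a, b, e⟩ := sp h ht x
    exact ⟨(a, b), e.symm⟩
  obtain ⟨f, hf⟩ := this w h
  obtain ⟨g, hg⟩ := this w' h'
  exact ⟨f.symm.trans g, by simp [← hf, hg]⟩

end Pool.Agent.H.MP_5fce70_co
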